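import Mathlib
import Pool.Agent.Lib_helper33.QH.HarnessDefs
import Pool.Agent.Lib_helper33.QH.Good
import Pool.Agent.Lib_helper33.QH.Final

/-!
# A quadratic harness with `q > 1 - 2 √(σ τ)` which is not Markov

The parameters are `(σ, τ, θ, η, q) = (3, 1, 2, -3, -2)`.  For these parameters there are two
different Markov quadratic harnesses of the form `X_t = (1 + t) R_t - 1`, where `R` is (up to a
reparametrisation of the time) a limit of products of the points of a Poisson process: the points
of `R` have the intensity `nA` (type A) or `nB` (type B).  The mixture of the two harnesses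
is a quadratic harness, and it is not Markov: a process of type A stays positive, whereas one of
type B changes its sign.
-/

set_option autoImplicit false

open MeasureTheory
open scoped NNReal

namespace Pool.Agent.Results.MP_b61be4_pr.NonMarkovHarness

open Pool.Agent.Lib_helper33.QH

theorem result :
    (1 : ℝ) - 2 * √(3 * 1) < -2 ∧
    ∃ (Ω : Type) (_ : MeasurableSpace Ω) (P : Measure Ω) (_ : IsProbabilityMeasure P)
      (X : ℝ≥0 → Ω → ℝ), IsQuadraticHarness P X 3 1 2 (-3) (-2) ∧ ¬ IsMarkov P X := by
  refine ⟨?_, ?_⟩
  · have h1 : (3 / 2 : ℝ) < √3 := by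
      rw [Real.lt_sqrt (by norm_num)]
      norm_num
    rw [mul_one]
    linarith
  · refine main goodA goodB (fun t v _ hv => nA_pos (by linarith)) ?_
      (fun t v _ hv => nB_pos (by linarith) (by linarith)) ?_
    · intro t v hv
      unfold nA
      rw [if_neg (by linarith)]
    · intro t v _ hv
      exact nB_pos hv.ne (by linarith)

end Pool.Agent.Results.MP_b61be4_pr.NonMarkovHarness
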